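import Pool.Agent.TH296.NC.RInt
import Pool.Agent.TH511.J165
import Pool.Agent.TH286.NC.M6

set_option autoImplicit false

/-!
# Nilsequence averages do not control double averages

There is an integer sequence along which the averages of all nilsequences of step at most two
converge, but for which the averages of `T^{a(n)} f · T^{2a(n)} g` do not converge in mean.
-/

open Filter Topology MeasureTheory
open scoped Manifold ContDiff ComplexConjugate commutatorElement

namespace Pool.Agent.Results.MP_fc4783_an.NilsequenceCounterexample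

/-- `F` is bounded, and its restriction to the closed set `X` is continuous at almost every point
of `X` for every `T`-invariant Borel probability measure carried by `X`. -/
def RiemannIntegrableOn {Y : Type} [TopologicalSpace Y] [MeasurableSpace Y] (T : Y → Y) (X : Set Y)
    (F : Y → ℂ) : Prop :=
  (∃ M : ℝ, ∀ x, ‖F x‖ ≤ M) ∧
    ∀ ν : Measure Y, IsProbabilityMeasure ν → MeasurePreserving T ν ν → ν Xᶜ = 0 →
      ∀ᵐ x ∂ν, ContinuousWithinAt F X x

/-- `φ` is a basic 2-step nilsequence: `φ m = F (b ^ m • y)` for a nilmanifold `G ⧸ Γ`, where `G`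
is a real Lie group, nilpotent of step at most two, `Γ` is discrete and cocompact, `b ∈ G`,
`y ∈ G ⧸ Γ`, and `F` is Riemann integrable on the closure of the orbit of `y` under `b`. -/
def IsBasicNilsequence (φ : ℤ → ℂ) : Prop :=
  ∃ (E : Type) (_ : NormedAddCommGroup E) (_ : NormedSpace ℝ E) (_ : FiniteDimensional ℝ E)
    (G : Type) (_ : Group G) (_ : TopologicalSpace G) (_ : T2Space G)
    (_ : SecondCountableTopology G) (_ : ChartedSpace E G) (_ : LieGroup 𝓘(ℝ, E) ∞ G)
    (_ : Group.IsNilpotent G) (Γ : Subgroup G) (_ : MeasurableSpace (G ⧸ Γ))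
    (_ : BorelSpace (G ⧸ Γ)) (b : G) (y : G ⧸ Γ) (F : G ⧸ Γ → ℂ),
    Group.nilpotencyClass G ≤ 2 ∧ DiscreteTopology Γ ∧ CompactSpace (G ⧸ Γ) ∧
      RiemannIntegrableOn (fun x : G ⧸ Γ => b • x) (closure (Set.range fun m : ℤ => b ^ m • y)) F ∧
      ∀ m : ℤ, φ m = F (b ^ m • y)

/-- 2-step nilsequences: uniform limits of basic ones -/
def IsNilsequence (ψ : ℤ → ℂ) : Prop :=
  ∀ ε : ℝ, 0 < ε → ∃ φ : ℤ → ℂ, IsBasicNilsequence φ ∧ ∀ m : ℤ, ‖ψ m - φ m‖ ≤ ε

/-- The averages `(1/N) ∑_{n=1}^{N} ψ (a n)` converge for every 2-step nilsequence `ψ`. -/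
def NilsequenceAveragesConverge (a : ℕ → ℤ) : Prop :=
  ∀ ψ : ℤ → ℂ, IsNilsequence ψ →
    ∃ L : ℂ, Tendsto (fun N : ℕ => (1 / (N : ℂ)) * ∑ n ∈ Finset.Icc 1 N, ψ (a n)) atTop (𝓝 L)

/-- The functions `A N` converge in `L²(μ)` as `N → ∞`. -/
def ConvergesInMean {X : Type} [MeasurableSpace X] (μ : Measure X) (A : ℕ → X → ℂ) : Prop :=
  ∃ h : X → ℂ, MemLp h 2 μ ∧ Tendsto (fun N => eLpNorm (fun x => A N x - h x) 2 μ) atTop (𝓝 0)

/-- For every invertible measure preserving system and all bounded `f`, `g` the averages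
`(1/N) ∑_{n=1}^{N} f(T^{a(n)} x) g(T^{2a(n)} x)` converge in `L²(μ)`. -/
def DoubleAveragesConverge (a : ℕ → ℤ) : Prop :=
  ∀ (X : Type) [MeasurableSpace X] (μ : Measure X) [IsProbabilityMeasure μ] (T : Equiv.Perm X),
    MeasurePreserving T μ μ → MeasurePreserving T.symm μ μ →
    ∀ f g : X → ℂ, MemLp f ⊤ μ → MemLp g ⊤ μ →
      ConvergesInMean μ (fun (N : ℕ) (x : X) =>
        (1 / (N : ℂ)) * ∑ n ∈ Finset.Icc 1 N, f ((T ^ a n) x) * g ((T ^ (2 * a n)) x))

open Pool.Agent.TH296.NC

/-- commutators are central in a group of class at most two -/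
theorem comm_central {G : Type} [Group G] [Group.IsNilpotent G] (h : Group.nilpotencyClass G ≤ 2)
    (x y : G) : ⁅x, y⁆ ∈ Subgroup.center G := by
  have h2 : Subgroup.upperCentralSeries G 2 = ⊤ :=
    Subgroup.upperCentralSeries_eq_top_iff_nilpotencyClass_le.mpr h
  have h3 : x ∈ Subgroup.upperCentralSeries G (1 + 1) := by
    rw [h2]; exact Subgroup.mem_top x
  have h4 := Subgroup.mem_upperCentralSeries_succ_iff.mp h3 y
  rwa [Subgroup.upperCentralSeries_one] at h4

/-- averages of basic nilsequences against the signed weights converge -/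
theorem basic_converge (𝔭 : Par) {φ : ℤ → ℂ} (hφ : IsBasicNilsequence φ) :
    (∃ M : ℝ, ∀ m, ‖φ m‖ ≤ M) ∧
    ∃ L, Tendsto (fun k => Av (𝔭.N k) (fun n => (𝔭.ww k n : ℂ) * φ n)) atTop (𝓝 L) := by
  obtain ⟨E, _, _, _, G, _, _, _, _, _, _, _, Γ, _, _, b, y, F, hcl, hd, hc, ⟨⟨M, hM⟩, hF⟩, hφ⟩ := hφ
  have : IsTopologicalGroup G := topologicalGroup_of_lieGroup 𝓘(ℝ, E) ∞
  have : ProperSpace E := FiniteDimensional.proper ℝ E
  have : LocallyCompactSpace G := ChartedSpace.locallyCompactSpace E G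
  obtain ⟨L, hL⟩ := stepC E Γ 𝔭 (comm_central hcl) b y F M hM hF
  refine ⟨⟨M, fun m => by rw [hφ]; exact hM _⟩, L, ?_⟩
  simpa only [hφ] using hL

theorem mass_ww (𝔭 : Par) {k : ℕ} (hk : 1 ≤ k) : AvR (𝔭.N k) (𝔭.ww k) ≤ 4 := by
  have h1 : AvR (𝔭.N k) (𝔭.ww k) ≤ AvR (𝔭.N k) (fun n => 2 * 𝔭.W k n) :=
    AvR_mono' fun n => 𝔭.ww_le k n
  rw [AvR_const_mul] at h1
  have h2 := 𝔭.mass k hk
  have h3 : AvR (𝔭.N k) (fun n => 𝔭.W k n) = AvR (𝔭.N k) (𝔭.W k) := rfl
  rw [h3] at h1
  linarith

/-- averages of nilsequences against the signed weights converge -/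
theorem nil_converge (𝔭 : Par) {ψ : ℤ → ℂ} (hψ : IsNilsequence ψ) :
    (∃ M : ℝ, ∀ m, ‖ψ m‖ ≤ M) ∧
    ∃ L, Tendsto (fun k => Av (𝔭.N k) (fun n => (𝔭.ww k n : ℂ) * ψ n)) atTop (𝓝 L) := by
  constructor
  · obtain ⟨φ, hφ, hψφ⟩ := hψ 1 one_pos
    obtain ⟨⟨M, hM⟩, -⟩ := basic_converge 𝔭 hφ
    refine ⟨1 + M, fun m => ?_⟩
    have e : ψ m = (ψ m - φ m) + φ m := by ring
    rw [e]
    exact (norm_add_le _ _).trans (add_le_add (hψφ m) (hM m))
  · apply conv_of_approx
    intro ε hε
    obtain ⟨φ, hφ, hψφ⟩ := hψ (ε / 4) (by positivity)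
    refine ⟨_, (basic_converge 𝔭 hφ).2, ?_⟩
    filter_upwards [eventually_ge_atTop 1] with k hk
    rw [← Av_sub]
    have h1 : ‖Av (𝔭.N k) (fun n => (𝔭.ww k n : ℂ) * ψ n - (𝔭.ww k n : ℂ) * φ n)‖ ≤
        AvR (𝔭.N k) (fun n => (ε / 4) * 𝔭.ww k n) := by
      apply norm_Av_le_of_le'
      intro n
      rw [← mul_sub, norm_mul, Complex.norm_real, Real.norm_of_nonneg (𝔭.ww_nonneg k n), mul_comm]
      exact mul_le_mul_of_nonneg_right (hψφ n) (𝔭.ww_nonneg k n)
    refine h1.trans ?_
    rw [AvR_const_mul]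
    have h2 := mass_ww 𝔭 hk
    have h3 : AvR (𝔭.N k) (fun n => 𝔭.ww k n) = AvR (𝔭.N k) (𝔭.ww k) := rfl
    rw [h3]
    nlinarith

/-- the total mass of the signed weights tends to one -/
theorem tendsto_mass_ww (𝔭 : Par) : Tendsto (fun k => AvR (𝔭.N k) (𝔭.ww k)) atTop (𝓝 1) := by
  have l2 : Tendsto (fun k => Av (𝔭.N k) (𝔭.P k)) atTop (𝓝 0) := by
    have h := 𝔭.char_P 1
    unfold Lm at h
    refine h.congr fun d => ?_
    congr 1; funext n; beta_reduce; rw [one_zpow, Circle.coe_one, mul_one]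
  have l4 : Tendsto (fun k => AvR (𝔭.N k) (𝔭.W k)) atTop (𝓝 1) := by
    have h := MM_one_tendsto 𝔭.adm' BB_one_le 𝔭.BB_le
    refine h.congr fun d => ?_
    exact (AvR_WW_eq 𝔭.ζ 𝔭.N BB_one_le d).symm
  have l3 : Tendsto (fun k : ℕ => (-1 : ℝ) ^ k * (Av (𝔭.N k) (𝔭.P k)).re) atTop (𝓝 0) := by
    have h1 := tendsto_zero_iff_norm_tendsto_zero.mp l2
    apply squeeze_zero_norm _ h1
    intro k
    rw [norm_mul, norm_pow, norm_neg, norm_one, one_pow, one_mul, Real.norm_eq_abs]
    exact Complex.abs_re_le_norm _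
  have h := l4.add l3
  rw [add_zero] at h
  refine h.congr fun k => ?_
  have e : (Av (𝔭.N k) (𝔭.P k)).re = AvR (𝔭.N k) (fun n => (𝔭.P k n).re) := by
    unfold Av AvR
    have e1 : ((𝔭.N k : ℂ)) ^ 2 = (((𝔭.N k : ℝ) ^ 2 : ℝ) : ℂ) := by push_cast; rfl
    rw [e1, Complex.div_ofReal_re]
    simp only [Complex.re_sum]
  rw [e, ← AvR_const_mul, ← AvR_add]
  rfl

/-- **Theorem.** There is a sequence of integers along which the averages of all 2-step
nilsequences converge, but for which double averages need not converge in the mean. -/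
theorem result : ∃ a : ℕ → ℤ, NilsequenceAveragesConverge a ∧ ¬ DoubleAveragesConverge a := by
  obtain ⟨𝔭⟩ := nonempty_par
  -- realize the signed weights by a sequence
  obtain ⟨a, ha⟩ := Pool.Agent.TH511.J165.exists_seq_of_weights
    (fun k => Finset.range (𝔭.N k) ×ˢ Finset.range (𝔭.N k))
    (fun p : ℕ × ℕ => (p.1 : ℤ) - (p.2 : ℤ))
    (fun k p => 𝔭.ww k ((p.1 : ℤ) - (p.2 : ℤ)) / (𝔭.N k : ℝ) ^ 2)
    (fun k p _ => div_nonneg (𝔭.ww_nonneg _ _) (by positivity)) (by
      refine (tendsto_mass_ww 𝔭).congr fun k => ?_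
      unfold AvR
      rw [Finset.sum_product, Finset.sum_div]
      refine Finset.sum_congr rfl fun j _ => ?_
      rw [Finset.sum_div])
  have hav : ∀ (Ψ : ℤ → ℂ) (k : ℕ), ∑ p ∈ Finset.range (𝔭.N k) ×ˢ Finset.range (𝔭.N k),
      ((𝔭.ww k ((p.1 : ℤ) - (p.2 : ℤ)) / (𝔭.N k : ℝ) ^ 2 : ℝ) : ℂ) * Ψ ((p.1 : ℤ) - (p.2 : ℤ)) =
      Av (𝔭.N k) (fun n => (𝔭.ww k n : ℂ) * Ψ n) := by
    intro Ψ k
    unfold Av
    rw [Finset.sum_product, Finset.sum_div]
    refine Finset.sum_congr rfl fun j _ => ?_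
    rw [Finset.sum_div]
    refine Finset.sum_congr rfl fun l _ => ?_
    push_cast
    ring
  simp only [hav] at ha
  refine ⟨a, fun ψ hψ => ?_, fun hD => ?_⟩
  · obtain ⟨hb, L, hL⟩ := nil_converge 𝔭 hψ
    exact ⟨L, (ha ψ hb L).mp hL⟩
  · -- the system
    obtain ⟨X, _, μ, _, T, f₀, f₁, f₂, hT, hT', hm0, hm1, hm2, hn0, hn1, hn2, hC⟩ :=
      Pool.Agent.TH286.NC.exists_system 𝔭.α 𝔭.a 𝔭.hα 𝔭.summable_alpha 𝔭.summable_a_alpha
    have hTs : MeasurePreserving T.symm μ μ := by
      refine ⟨hT', ?_⟩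
      have h1 := hT.map_eq
      calc μ.map T.symm = (μ.map T).map T.symm := by rw [h1]
        _ = μ.map (T.symm ∘ T) := Measure.map_map hT' hT.measurable
        _ = μ := by
          have : (T.symm ∘ T : X → X) = id := by funext x; simp
          rw [this, Measure.map_id]
    have hmT : ∀ m : ℤ, Measurable (fun x => (T ^ m) x) := by
      have hpos : ∀ m : ℕ, Measurable (fun x => (T ^ m) x) := by
        intro m
        induction m with
        | zero => exact measurable_id
        | succ m ih =>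
          have : (fun x => (T ^ (m + 1)) x) = fun x => (T ^ m) (T x) := by
            funext x; rw [pow_succ]; rfl
          rw [this]; exact ih.comp hT.measurable
      have hneg : ∀ m : ℕ, Measurable (fun x => ((T⁻¹) ^ m) x) := by
        intro m
        induction m with
        | zero => exact measurable_id
        | succ m ih =>
          have : (fun x => ((T⁻¹) ^ (m + 1)) x) = fun x => ((T⁻¹) ^ m) (T.symm x) := by
            funext x; rw [pow_succ]; rfl
          rw [this]; exact ih.comp hT'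
      intro m
      obtain ⟨p, rfl | rfl⟩ := m.eq_nat_or_neg
      · simpa using hpos p
      · have := hneg p
        simpa using this
    have hf1 : MemLp f₁ ⊤ μ := memLp_top_of_bound hm1.aestronglyMeasurable 1 (ae_of_all _ hn1)
    have hf2 : MemLp f₂ ⊤ μ := memLp_top_of_bound hm2.aestronglyMeasurable 1 (ae_of_all _ hn2)
    obtain ⟨h, hh, hlim⟩ := hD X μ T hT hTs f₁ f₂ hf1 hf2
    set g : ℤ → X → ℂ := fun m x => f₁ ((T ^ m) x) * f₂ ((T ^ (2 * m)) x) with hg
    have hgm : ∀ m, Measurable (g m) := fun m => (hm1.comp (hmT m)).mul (hm2.comp (hmT (2 * m)))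
    have hgn : ∀ m x, ‖g m x‖ ≤ 1 := by
      intro m x
      rw [hg]
      simp only [norm_mul]
      calc _ ≤ (1 : ℝ) * 1 := mul_le_mul (hn1 _) (hn2 _) (norm_nonneg _) zero_le_one
        _ = 1 := one_mul 1
    have hfg : ∀ m, Integrable (fun x => f₀ x * g m x) μ := by
      intro m
      apply Integrable.of_bound (hm0.mul (hgm m)).aestronglyMeasurable 1
      apply ae_of_all
      intro x
      rw [Pi.mul_apply, norm_mul]
      calc _ ≤ (1 : ℝ) * 1 := mul_le_mul (hn0 _) (hgn _ _) (norm_nonneg _) zero_le_one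
        _ = 1 := one_mul 1
    set C : ℤ → ℂ := fun m => ∫ x, f₀ x * g m x ∂μ with hCdef
    have hCb : ∀ m, ‖C m‖ ≤ 1 := by
      intro m
      have := norm_integral_le_of_norm_le_const (μ := μ) (f := fun x => f₀ x * g m x) (C := 1)
        (ae_of_all _ fun x => by
          rw [norm_mul]
          calc _ ≤ (1 : ℝ) * 1 := mul_le_mul (hn0 _) (hgn _ _) (norm_nonneg _) zero_le_one
            _ = 1 := one_mul 1)
      simpa using this
    -- the averages of the correlations converge
    set A : ℕ → X → ℂ := fun N x => (1 / (N : ℂ)) * ∑ n ∈ Finset.Icc 1 N, g (a n) x with hA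
    have hAm : ∀ N, Measurable (A N) := by
      intro N
      exact (Finset.measurable_sum _ fun n _ => hgm (a n)).const_mul _
    have hAint : ∀ N, ∫ x, f₀ x * A N x ∂μ = (1 / (N : ℂ)) * ∑ n ∈ Finset.Icc 1 N, C (a n) := by
      intro N
      have e1 : (fun x => f₀ x * A N x) = fun x => (1 / (N : ℂ)) *
          ∑ n ∈ Finset.Icc 1 N, f₀ x * g (a n) x := by
        funext x
        rw [hA]
        simp only [Finset.mul_sum]
        refine Finset.sum_congr rfl fun n _ => by ring
      rw [e1, integral_const_mul, integral_finsetSum]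
      intro n _
      exact hfg _
    have hlimC : Tendsto (fun N : ℕ => (1 / (N : ℂ)) * ∑ n ∈ Finset.Icc 1 N, C (a n)) atTop
        (𝓝 (∫ x, f₀ x * h x ∂μ)) := by
      rw [tendsto_iff_norm_sub_tendsto_zero]
      have hreal : Tendsto (fun N => (eLpNorm (fun x => A N x - h x) 2 μ).toReal) atTop (𝓝 0) := by
        have := (ENNReal.tendsto_toReal ENNReal.zero_ne_top).comp hlim
        rw [ENNReal.toReal_zero] at this
        exact this
      apply squeeze_zero' (Eventually.of_forall fun _ => norm_nonneg _) _ hreal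
      have hfin : ∀ᶠ N in atTop, eLpNorm (fun x => A N x - h x) 2 μ < ⊤ :=
        hlim.eventually_lt_const (by norm_num)
      filter_upwards [hfin] with N hN
      have hhint : Integrable h μ := hh.integrable (by norm_num)
      have hAi : Integrable (A N) μ := by
        have : ∀ x, ‖A N x‖ ≤ ‖(1 / (N : ℂ))‖ * ∑ n ∈ Finset.Icc 1 N, (1 : ℝ) := by
          intro x
          rw [hA]
          simp only [norm_mul]
          gcongr
          exact (norm_sum_le _ _).trans (Finset.sum_le_sum fun n _ => hgn _ _)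
        exact Integrable.of_bound (hAm N).aestronglyMeasurable _ (ae_of_all _ this)
      have hf0h : Integrable (fun x => f₀ x * h x) μ :=
        hhint.bdd_mul hm0.aestronglyMeasurable (ae_of_all _ hn0)
      have hf0A : Integrable (fun x => f₀ x * A N x) μ :=
        hAi.bdd_mul hm0.aestronglyMeasurable (ae_of_all _ hn0)
      rw [← hAint N, ← integral_sub hf0A hf0h]
      have h1 : ‖∫ x, (f₀ x * A N x - f₀ x * h x) ∂μ‖ ≤ ∫ x, ‖A N x - h x‖ ∂μ := by
        refine (norm_integral_le_integral_norm _).trans ?_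
        apply integral_mono_of_nonneg (ae_of_all _ fun x => norm_nonneg _) (hAi.sub hhint).norm
        apply ae_of_all
        intro x
        simp only
        rw [← mul_sub, norm_mul]
        calc _ ≤ 1 * ‖A N x - h x‖ := mul_le_mul_of_nonneg_right (hn0 x) (norm_nonneg _)
          _ = _ := one_mul _
      refine h1.trans ?_
      have h2 : ∫ x, ‖A N x - h x‖ ∂μ = (eLpNorm (fun x => A N x - h x) 1 μ).toReal := by
        rw [eLpNorm_one_eq_lintegral_enorm, ← integral_norm_eq_lintegral_enorm]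
        exact (hAi.sub hhint).aestronglyMeasurable
      rw [h2]
      apply ENNReal.toReal_mono hN.ne
      exact eLpNorm_le_eLpNorm_of_exponent_le (by norm_num) (hAi.sub hhint).aestronglyMeasurable
    have hlimW := (ha C ⟨1, hCb⟩ _).mpr hlimC
    set L : ℂ := ∫ x, f₀ x * h x ∂μ with hL
    have hest := 𝔭.estimate (C := C) (fun n => hC n)
    -- even and odd indices
    have hre := (Complex.continuous_re.tendsto _).comp hlimW
    have heven : 1 / 4 ≤ L.re := by
      have hsub : Tendsto (fun k : ℕ => 2 * k) atTop atTop :=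
        (show StrictMono (fun k : ℕ => 2 * k) from fun i j hij => by
          beta_reduce; omega).tendsto_atTop
      apply ge_of_tendsto (hre.comp hsub)
      filter_upwards [hsub.eventually hest] with k hk
      simp only [Function.comp_apply]
      have e : ((-1 : ℂ)) ^ (2 * k) = 1 := by rw [pow_mul]; norm_num
      rw [e, one_mul] at hk
      exact hk
    have hodd : L.re ≤ -(1 / 4) := by
      have hsub : Tendsto (fun k : ℕ => 2 * k + 1) atTop atTop :=
        (show StrictMono (fun k : ℕ => 2 * k + 1) from fun i j hij => by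
          beta_reduce; omega).tendsto_atTop
      apply le_of_tendsto (hre.comp hsub)
      filter_upwards [hsub.eventually hest] with k hk
      simp only [Function.comp_apply]
      have e : ((-1 : ℂ)) ^ (2 * k + 1) = -1 := by rw [pow_succ, pow_mul]; norm_num
      rw [e, neg_one_mul, Complex.neg_re] at hk
      linarith
    linarith

end Pool.Agent.Results.MP_fc4783_an.NilsequenceCounterexample
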